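import Pool.Agent.Y192.KC.StrStm

/-!
# STR-GTM: covers of varieties of log general type with high ramification are of general type
-/

set_option autoImplicit false

namespace Pool.Agent.Y450.STR

open MvPolynomial FF Pool.Agent.W602.GT Pool.Agent.Y192.OG Pool.Agent.Y192.KC

section place

variable {L : Type} [Field L] [Algebra ℂ L] (P : Place ℂ L)

theorem reg_pow {f : L} (hf : P.Reg f) (n : ℕ) : P.Reg (f ^ n) := by
  induction n with
  | zero => rw [pow_zero]; exact P.reg_one
  | succ n ih => rw [pow_succ]; exact P.reg_mul ih hf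

/-- a place of an algebraic extension is not trivial on the base field -/
theorem not_trivial_of_alg {K : Type} [Field K] [Algebra K L] [Algebra.IsAlgebraic K L]
    (h : ∀ z : K, P.ord (algebraMap K L z) = 0) : False := by
  obtain ⟨f, hf0, hf1⟩ := P.surj
  have hK : ∀ z : K, P.Reg (algebraMap K L z) := fun z => Or.inr (h z).ge
  have hint : IsIntegral K f := (Algebra.IsAlgebraic.isAlgebraic f).isIntegral
  have hc := minpoly.coeff_zero_ne_zero hint hf0
  have hreg : ∀ q : Polynomial K, P.Reg (Polynomial.aeval f q) := by
    intro q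
    induction q using Polynomial.induction_on' with
    | add p q hp hq => rw [map_add]; exact P.reg_add hp hq
    | monomial n a =>
      rw [Polynomial.aeval_monomial]
      exact P.reg_mul (hK a) (reg_pow P (Or.inr (by rw [hf1]; norm_num)) n)
  have h1 : Polynomial.aeval f (minpoly K f).divX * f =
      -algebraMap K L ((minpoly K f).coeff 0) := by
    have h2 := minpoly.aeval K f
    rw [← Polynomial.divX_mul_X_add (minpoly K f), map_add, map_mul, Polynomial.aeval_X,
      Polynomial.aeval_C] at h2
    exact eq_neg_of_add_eq_zero_left h2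
  have h3 : Polynomial.aeval f (minpoly K f).divX ≠ 0 := by
    intro h4
    rw [h4, zero_mul] at h1
    have h5 : algebraMap K L ((minpoly K f).coeff 0) = 0 := neg_eq_zero.1 h1.symm
    exact hc ((map_eq_zero _).1 h5)
  have h6 := congrArg P.ord h1
  rw [P.ord_mul h3 hf0, P.ord_neg, h, hf1] at h6
  have h7 := (P.reg_iff h3).1 (hreg _)
  omega

end place

/-- the dehomogenized coordinates -/
def yy {n : ℕ} {K : Type} [Field K] (x : Fin n → Kˣ) : Fin (n + 1) → K :=
  Fin.cons (α := fun _ => K) 1 fun i => (x i : K)

theorem yy_ne {n : ℕ} {K : Type} [Field K] (x : Fin n → Kˣ) (i : Fin (n + 1)) : yy x i ≠ 0 := by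
  refine Fin.cases ?_ (fun i => ?_) i
  · show (1 : K) ≠ 0
    exact one_ne_zero
  · show (x i : K) ≠ 0
    exact (x i).ne_zero

theorem t_gtm (hlgt : St_lgtG) : St_gtm := by
  intro ρ r p K' _ _ x' F' e he hp hgen hLG
  have hEK : Algebra.EssFiniteType ℂ K' := by
    have h1 : (⊤ : IntermediateField ℂ K').FG := by
      rw [← hgen]
      exact IntermediateField.fg_adjoin_of_finite (Set.finite_range _)
    exact IntermediateField.fg_top_iff.mp h1
  have hy0 : yy x' 0 = 1 := rfl
  have hys : ∀ i : Fin ρ, yy x' i.succ = (x' i : K') := fun i => rfl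
  have hgy : IntermediateField.adjoin ℂ (Set.range fun i => yy x' i / yy x' 0) = ⊤ := by
    rw [eq_top_iff, ← hgen, IntermediateField.adjoin_le_iff]
    rintro _ ⟨i, rfl⟩
    apply IntermediateField.subset_adjoin
    refine ⟨i.succ, ?_⟩
    show yy x' i.succ / yy x' 0 = _
    rw [hy0, div_one, hys]
  obtain ⟨μ, hμ⟩ := hlgt K' ρ p (yy x')
    (fun P => ∃ j, ¬ ((e j : ℤ) ∣ P.ord (ep x' (F' j)))) hp (yy_ne x')
    (by
      intro z
      have hz : z ∈ IntermediateField.adjoin ℂ (Set.range fun i => yy x' i / yy x' 0) := by
        rw [hgy]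
        exact IntermediateField.mem_top
      exact isAlgebraic_algebraMap
        (⟨z, hz⟩ : IntermediateField.adjoin ℂ (Set.range fun i => yy x' i / yy x' 0)))
    (by
      have e1 : (fun P : Place ℂ K' => (∃ i, P.ord (yy x' i) ≠ P.ord (yy x' 0)) ∨
          ∃ j, ¬ ((e j : ℤ) ∣ P.ord (ep x' (F' j)))) =
          (fun P => (∃ i, P.ord (x' i : K') ≠ 0) ∨
            ∃ j, ¬ ((e j : ℤ) ∣ P.ord (ep x' (F' j)))) := by
        funext P
        apply propext
        apply or_congr_left
        rw [hy0, P.ord_one]
        constructor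
        · rintro ⟨i, hi⟩
          revert hi
          refine Fin.cases ?_ (fun i => ?_) i
          · intro hi
            rw [hy0, P.ord_one] at hi
            exact absurd rfl hi
          · intro hi
            exact ⟨i, hi⟩
        · rintro ⟨i, hi⟩
          exact ⟨i.succ, hi⟩
      rw [e1]
      exact hLG)
  refine ⟨μ, fun m hm hm0 M _ _ φ z v hz hv hgM => ?_⟩
  let _ : Algebra K' M := φ.toRingHom.toAlgebra
  have hST : IsScalarTower ℂ K' M := IsScalarTower.of_algebraMap_eq' (φ.comp_algebraMap).symm
  have hmap : ∀ y : K', algebraMap K' M y = φ y := fun y => rfl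
  have hEM : Algebra.EssFiniteType ℂ M := by
    have h1 : (⊤ : IntermediateField ℂ M).FG := by
      rw [← hgM]
      exact IntermediateField.fg_adjoin_of_finite ((Set.finite_range _).union (Set.finite_range _))
    exact IntermediateField.fg_top_iff.mp h1
  have halg : Algebra.IsAlgebraic K' M := by
    have hle : IntermediateField.adjoin ℂ (Set.range z ∪ Set.range v) ≤
        (algebraicClosure K' M).restrictScalars ℂ := by
      rw [IntermediateField.adjoin_le_iff]
      rintro _ (⟨i, rfl⟩ | ⟨j, rfl⟩)
      · show z i ∈ algebraicClosure K' M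
        rw [mem_algebraicClosure_iff]
        refine IsAlgebraic.of_pow hm0 ?_
        rw [hz i, ← hmap]
        exact isAlgebraic_algebraMap _
      · show v j ∈ algebraicClosure K' M
        rw [mem_algebraicClosure_iff]
        refine IsAlgebraic.of_pow (he j) ?_
        rw [hv j, ← hmap]
        exact isAlgebraic_algebraMap _
    refine ⟨fun y => ?_⟩
    have hy : y ∈ IntermediateField.adjoin ℂ (Set.range z ∪ Set.range v) := by
      rw [hgM]
      exact IntermediateField.mem_top
    exact mem_algebraicClosure_iff.1 (hle hy)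
  have hlog : LogGeneralType ℂ M p (fun _ => False) := by
    refine hμ M (fun _ => False) fun P _ => ?_
    have hord : ∀ i, P.ord (algebraMap K' M (x' i : K')) = m * P.ord (z i) := by
      intro i
      rw [hmap, ← hz i, P.ord_pow]
    have hord0 : P.ord (algebraMap K' M (yy x' 0)) = 0 := by
      rw [hy0, map_one, P.ord_one]
    by_cases hall : ∀ i, P.ord (z i) = 0
    · left
      refine ⟨fun i => ?_, ?_⟩
      · rw [hord0]
        refine Fin.cases hord0 (fun i => ?_) i
        rw [hys, hord, hall i, mul_zero]
      · intro P0 s hs hB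
        obtain ⟨j, hj⟩ := hB
        have hs0 : s ≠ 0 := by
          rintro rfl
          refine not_trivial_of_alg (K := K') P fun y => ?_
          rw [hs y, Nat.cast_zero, zero_mul]
        by_contra hs2
        have hs1 : s = 1 := by omega
        apply hj
        have h1 := hs (ep x' (F' j))
        rw [hs1, Nat.cast_one, one_mul, hmap, ← hv j, P.ord_pow] at h1
        rw [← h1]
        exact dvd_mul_right _ _
    · right
      push Not at hall
      obtain ⟨i, hi⟩ := hall
      have h3 : (μ : ℤ) ≤ m := by exact_mod_cast hm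
      have h5 : (0 : ℤ) < m := by exact_mod_cast hm0
      have h6 := hord i
      rcases lt_or_gt_of_ne hi with h | h
      · refine ⟨i.succ, 0, ?_⟩
        rw [hord0, hys, h6]
        nlinarith
      · refine ⟨0, i.succ, ?_⟩
        rw [hord0, hys, h6]
        nlinarith
  obtain ⟨h1, N, hN, ω, h2, -, h3, h4⟩ := hlog
  exact ⟨h1, N, hN, ω, h2, fun P hP => h3 P hP id, h4⟩

end Pool.Agent.Y450.STR
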